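import Pool.Agent.Lib_helper41.TK.Defs
import Pool.Agent.Lib_helper71.LSP3.AS1
import Pool.Agent.Lib_helper68.LEV.INV
import Pool.Agent.Lib_helper68.LEV.LSC
import Pool.Agent.Lib_helper68.LEV.EIA
import Pool.Agent.Lib_helper68.LEV.HPO

/-! TK, block AG: the central value of the twist and the truncated smooth sum. -/

set_option autoImplicit false

namespace Pool.Agent.TK

open Pool.Agent.LEV Pool.Agent.LVB Pool.Agent.KSL
open Pool.Agent.LK (PQ)
open Pool.Agent.FG61 (mu phi cc ff AA Lam)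
open Complex MeasureTheory Filter Topology UpperHalfPlane ModularGroup ProbabilityTheory
open scoped MatrixGroups Modular ENNReal ModularForm ComplexConjugate ContDiff

/-- a crude uniform bound for the coefficients of newforms -/
theorem AG_co : ∃ C : ℝ, 0 < C ∧ ∀ (N : ℕ) [Fact N.Prime] (f : S2 N), IsNew f → ∀ n : ℕ,
    1 ≤ n → ‖co f n‖ ≤ C * N * n := by
  obtain ⟨C₁, hC1, h1⟩ := coef_le_pr
  obtain ⟨C₂, hC2, h2⟩ := nr_sum_pr
  refine ⟨Real.sqrt (2 * C₁ * C₂), Real.sqrt_pos.mpr (by positivity), ?_⟩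
  intro N hN f hf n hn
  have hN1 : (1 : ℝ) ≤ N := by exact_mod_cast hN.out.one_lt.le
  have hN0 : (0 : ℝ) < N := by linarith
  have hn1 : (1 : ℝ) ≤ n := by exact_mod_cast hn
  have hn0 : (0 : ℝ) < n := by linarith
  have h3 : nr f ≤ C₂ * N ^ 2 := by
    have h := h2 N (fun _ : Unit => f) (fun _ _ _ => rfl) (fun _ => hf)
    simpa using h
  have h4 : ‖co f n‖ ^ 2 / n ≤ C₁ * (1 + n / N) * nr f := by
    refine le_trans ?_ (h1 N f n)
    exact Finset.single_le_sum (f := fun n : ℕ => ‖co f n‖ ^ 2 / (n : ℝ))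
      (fun i _ => by positivity) (Finset.mem_Icc.mpr ⟨hn, le_refl n⟩)
  have h5 : (n : ℝ) / N ≤ n := div_le_self hn0.le hN1
  have h6 : C₁ * (1 + n / N) * nr f ≤ C₁ * (2 * n) * (C₂ * N ^ 2) := by
    have h7 : C₁ * (1 + (n : ℝ) / N) * nr f ≤ C₁ * (1 + n / N) * (C₂ * N ^ 2) :=
      mul_le_mul_of_nonneg_left h3 (by positivity)
    refine h7.trans ?_
    apply mul_le_mul_of_nonneg_right _ (by positivity)
    apply mul_le_mul_of_nonneg_left _ hC1.le
    linarith
  have h8 : ‖co f n‖ ^ 2 ≤ (2 * C₁ * C₂) * (N * n) ^ 2 := by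
    have h9 := h4.trans h6
    rw [div_le_iff₀ hn0] at h9
    calc ‖co f n‖ ^ 2 ≤ C₁ * (2 * n) * (C₂ * N ^ 2) * n := h9
      _ = (2 * C₁ * C₂) * (N * n) ^ 2 := by ring
  have h10 : (2 * C₁ * C₂) * ((N : ℝ) * n) ^ 2 = (Real.sqrt (2 * C₁ * C₂) * N * n) ^ 2 := by
    rw [mul_assoc (Real.sqrt _), mul_pow (Real.sqrt _), Real.sq_sqrt (by positivity)]
  rw [h10] at h8
  exact (pow_le_pow_iff_left₀ (norm_nonneg _) (by positivity) two_ne_zero).mp h8

/-- the terms of the central value -/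
noncomputable def AG_a {q N : ℕ} [NeZero q] (χ : DirichletCharacter ℂ q) (f : S2 N) (n : ℕ) : ℝ :=
  (χ n).re * (co f n).re / n * Real.exp (-(2 * Real.pi * n / (q * Real.sqrt N)))

theorem AG_bx {q N : ℕ} [NeZero q] (χ : DirichletCharacter ℂ q) (f : S2 N) :
    bx χ f = 2 * ∑' n : ℕ, AG_a χ f n := rfl

theorem AG_mx {q N : ℕ} [NeZero q] (hNp : N.Prime) (χ : DirichletCharacter ℂ q) {f : S2 N}
    (hf : IsNew f) (hr : ∀ n, (co f n).im = 0) {A : ℕ} (hA : A < N) :
    Pool.Agent.LSP.MX A (Pool.Agent.LE.xv χ 0 (Pool.Agent.LX.Yy q N) A) (la f) =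
      ∑ n ∈ Finset.range (A + 1), AG_a χ f n := by
  have h0 : AG_a χ f 0 = 0 := by
    unfold AG_a
    simp
  have h1 : ∑ n ∈ Finset.range (A + 1), AG_a χ f n = ∑ n ∈ Finset.Icc 1 A, AG_a χ f n := by
    rw [Finset.sum_range_succ', h0, add_zero]
    rw [Finset.range_eq_Ico, Finset.sum_Ico_add' (fun n => AG_a χ f n) 0 A 1]
    rfl
  rw [h1]
  unfold Pool.Agent.LSP.MX
  refine Finset.sum_congr rfl fun e he => ?_
  obtain ⟨he1, he2⟩ := Finset.mem_Icc.mp he
  have hco : e.Coprime N := Nat.Coprime.symm ((Nat.Prime.coprime_iff_not_dvd hNp).mpr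
    (Nat.not_dvd_of_pos_of_lt (by omega) (by omega)))
  rw [um_new_pr hf hr (by omega) hco]
  have e1 : Pool.Agent.LE.xv χ 0 (Pool.Agent.LX.Yy q N) A e =
      (χ e).re * Real.exp (-(2 * Real.pi * ((e : ℝ) / Pool.Agent.LX.Yy q N))) := by
    unfold Pool.Agent.LE.xv
    rw [if_pos ⟨he1, he2⟩]
    rfl
  have hs : Real.sqrt e * Real.sqrt e = e := Real.mul_self_sqrt (Nat.cast_nonneg e)
  have hs0 : Real.sqrt e ≠ 0 := (Real.sqrt_pos.mpr (by exact_mod_cast he1)).ne'
  have e2 : 2 * Real.pi * ((e : ℝ) / Pool.Agent.LX.Yy q N) =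
      2 * Real.pi * e / (q * Real.sqrt N) := by
    unfold Pool.Agent.LX.Yy
    ring
  rw [e1, e2]
  unfold AG_a la
  set E := Real.exp (-(2 * Real.pi * (e : ℝ) / (q * Real.sqrt N))) with hE
  have e3 : (χ e).re * (co f e).re / (e : ℝ) * E =
      (χ e).re * (co f e).re / (Real.sqrt e * Real.sqrt e) * E := by rw [hs]
  rw [e3]
  field_simp

/-- the bound of a term -/
theorem AG_le {q N : ℕ} [NeZero q] {C : ℝ} (hC : 0 < C) (χ : DirichletCharacter ℂ q) {f : S2 N}
    (hco : ∀ n : ℕ, 1 ≤ n → ‖co f n‖ ≤ C * N * n) (n : ℕ) :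
    |AG_a χ f n| ≤ C * N * Real.exp (-(2 * Real.pi / (q * Real.sqrt N))) ^ n := by
  rcases Nat.eq_zero_or_pos n with rfl | hn
  · have h0 : AG_a χ f 0 = 0 := by
      unfold AG_a
      simp
    rw [h0, abs_zero]
    positivity
  · have hn0 : (0 : ℝ) < n := by exact_mod_cast hn
    have h1 : |(χ n).re| ≤ 1 :=
      (Complex.abs_re_le_norm _).trans (DirichletCharacter.norm_le_one χ _)
    have h2 : |(co f n).re| ≤ C * N * n := (Complex.abs_re_le_norm _).trans (hco n hn)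
    have h3 : Real.exp (-(2 * Real.pi * n / (q * Real.sqrt N))) =
        Real.exp (-(2 * Real.pi / (q * Real.sqrt N))) ^ n := by
      rw [← Real.exp_nat_mul]
      congr 1
      ring
    unfold AG_a
    rw [abs_mul, abs_div, abs_mul, abs_of_pos (Real.exp_pos _), abs_of_pos hn0, h3]
    apply mul_le_mul_of_nonneg_right _ (by positivity)
    rw [div_le_iff₀ hn0]
    calc |(χ n).re| * |(co f n).re| ≤ 1 * (C * N * n) :=
          mul_le_mul h1 h2 (abs_nonneg _) zero_le_one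
      _ = C * N * n := one_mul _

/-- the central value of the twist and the truncated smooth sum -/
theorem bx_u0 : ∃ N₀ : ℕ, ∀ (N : ℕ) [Fact N.Prime], N₀ ≤ N → ∀ (q : ℕ) [NeZero q]
    (χ : DirichletCharacter ℂ q), PQ χ → (q : ℝ) ≤ (N : ℝ) ^ Pool.Agent.LX.dl → ∀ f : S2 N,
    IsNew f → |bx χ f - 2 * Pool.Agent.LSP.MX (Pool.Agent.LX.Aa q N)
      (Pool.Agent.LE.xv χ 0 (Pool.Agent.LX.Yy q N) (Pool.Agent.LX.Aa q N)) (la f)| ≤ 1 / N := by
  obtain ⟨C, hC, hco⟩ := AG_co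
  obtain ⟨N₁, hN₁⟩ := Pool.Agent.LX.as_par
  obtain ⟨N₂, hN₂⟩ := Pool.Agent.LX.as_grow (4 * C + 3) 1
    (a := Pool.Agent.LX.nu / 100) (by have := Pool.Agent.LX.nu_pos; positivity)
  refine ⟨N₁ + N₂ + 2, ?_⟩
  intro N hNf hN q hq0 χ _ hqN f hf
  have hNp : N.Prime := hNf.out
  have hq1 : 1 ≤ q := Nat.one_le_iff_ne_zero.mpr (NeZero.ne q)
  obtain ⟨hpar, -, hA, hA1⟩ := hN₁ N (by omega) q hq1 hqN
  have hN2 : (2 : ℝ) ≤ N := by exact_mod_cast (by omega : 2 ≤ N)
  have hN0 : (0 : ℝ) < N := by linarith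
  have hN1 : (1 : ℝ) < N := by linarith
  set a := Pool.Agent.LX.nu / 100 with ha
  have hgrow : (4 * C + 3) * (1 + 2 * Real.log N) ≤ (N : ℝ) ^ a := by
    have h := hN₂ N (by omega)
    rwa [pow_one] at h
  set Y := Pool.Agent.LX.Yy q N with hY
  set A := Pool.Agent.LX.Aa q N with hAdef
  have hY1 : 1 ≤ Y := Pool.Agent.LX.as_Y hq1 (by omega)
  have hY0 : 0 < Y := by linarith
  have hAN : A < N := by
    have h1 : (A : ℝ) < N := by
      refine lt_of_le_of_lt hA ?_
      have h2 : (N : ℝ) ^ (1 / 2 + Pool.Agent.LX.nu / 20) < (N : ℝ) ^ (1 : ℝ) := by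
        apply Real.rpow_lt_rpow_of_exponent_lt hN1
        unfold Pool.Agent.LX.nu
        norm_num
      rwa [Real.rpow_one] at h2
    exact_mod_cast h1
  have hYA : Y * (N : ℝ) ^ a ≤ A := Nat.le_ceil _
  have hNa1 : 1 ≤ (N : ℝ) ^ a := by
    apply Real.one_le_rpow hN1.le
    have := Pool.Agent.LX.nu_pos
    positivity
  have hYN : Y ≤ N := by
    have h1 : Y ≤ A := by nlinarith
    have h2 : (A : ℝ) ≤ N := by exact_mod_cast hAN.le
    linarith
  set r := Real.exp (-(2 * Real.pi / Y)) with hr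
  have hr0 : 0 < r := Real.exp_pos _
  have hx0 : 0 < 2 * Real.pi / Y := by positivity
  have hr1 : r < 1 := by
    rw [hr, Real.exp_lt_one_iff]
    linarith
  have hle : ∀ n : ℕ, |AG_a χ f n| ≤ C * N * r ^ n := AG_le hC χ (hco N f hf)
  have hg : Summable (fun n : ℕ => C * N * r ^ n) :=
    (summable_geometric_of_lt_one hr0.le hr1).mul_left _
  have hsum : Summable (fun n : ℕ => AG_a χ f n) :=
    Summable.of_norm_bounded hg (fun n => by rw [Real.norm_eq_abs]; exact hle n)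
  rw [AG_bx, AG_mx hNp χ hf (fun n => new_real_pr hf n) hAN, ← mul_sub]
  have h1 := hsum.sum_add_tsum_nat_add (A + 1)
  have h2 : ∑' n : ℕ, AG_a χ f n - ∑ n ∈ Finset.range (A + 1), AG_a χ f n =
      ∑' n : ℕ, AG_a χ f (n + (A + 1)) := by
    rw [← h1]
    ring
  rw [h2, abs_mul, abs_two]
  have h3 : |∑' n : ℕ, AG_a χ f (n + (A + 1))| ≤ C * N * r ^ (A + 1) * (1 - r)⁻¹ := by
    have h4 : HasSum (fun n : ℕ => C * N * r ^ (A + 1) * r ^ n)
        (C * N * r ^ (A + 1) * (1 - r)⁻¹) := (hasSum_geometric_of_lt_one hr0.le hr1).mul_left _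
    rw [← Real.norm_eq_abs]
    refine tsum_of_norm_bounded h4 fun n => ?_
    rw [Real.norm_eq_abs]
    refine (hle _).trans (le_of_eq ?_)
    rw [pow_add]
    ring
  -- the geometric series
  have h5 : (1 - r)⁻¹ ≤ Y + 1 := by
    have h6 : r ≤ 1 / (1 + 2 * Real.pi / Y) := by
      rw [hr, Real.exp_neg, ← one_div]
      apply one_div_le_one_div_of_le (by positivity)
      have := Real.add_one_le_exp (2 * Real.pi / Y)
      linarith
    have h7 : 1 / (1 + 2 * Real.pi / Y) = 1 - 1 / (1 + Y / (2 * Real.pi)) := by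
      have hpi := Real.pi_pos
      field_simp
      ring
    have h8 : 1 / (1 + Y / (2 * Real.pi)) ≤ 1 - r := by linarith
    have h9 : (1 - r)⁻¹ ≤ 1 + Y / (2 * Real.pi) := by
      rw [inv_le_comm₀ (by linarith) (by positivity), ← one_div]
      exact h8
    have h10 : Y / (2 * Real.pi) ≤ Y := by
      apply div_le_self hY0.le
      have := Real.pi_gt_three
      linarith
    linarith
  have h6 : r ^ (A + 1) ≤ Real.exp (-((N : ℝ) ^ a)) := by
    have h7 : r ^ (A + 1) ≤ r ^ A := pow_le_pow_of_le_one hr0.le hr1.le (by omega)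
    refine h7.trans ?_
    rw [hr, ← Real.exp_nat_mul]
    apply Real.exp_le_exp.mpr
    have h8 : (N : ℝ) ^ a ≤ A * (2 * Real.pi / Y) := by
      have h9 : (N : ℝ) ^ a ≤ A / Y := by
        rw [le_div_iff₀ hY0, mul_comm]
        exact hYA
      have h10 : (A : ℝ) * (2 * Real.pi / Y) = A / Y * (2 * Real.pi) := by ring
      have h11 : 0 ≤ (A : ℝ) / Y := by positivity
      rw [h10]
      have := Real.pi_gt_three
      nlinarith
    linarith
  have h7 : 4 * C * N ^ 3 ≤ Real.exp ((N : ℝ) ^ a) := by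
    have hlog : 0 ≤ Real.log N := Real.log_nonneg hN1.le
    have h8 : Real.log (4 * C * N ^ 3) ≤ (N : ℝ) ^ a := by
      rw [Real.log_mul (by positivity) (by positivity), Real.log_pow]
      have h9 : Real.log (4 * C) ≤ 4 * C := (Real.log_le_sub_one_of_pos (by positivity)).trans
        (by linarith)
      push_cast
      have h10 : 0 ≤ 4 * C * (2 * Real.log N) := by positivity
      nlinarith
    calc 4 * C * (N : ℝ) ^ 3 = Real.exp (Real.log (4 * C * N ^ 3)) :=
          (Real.exp_log (by positivity)).symm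
      _ ≤ Real.exp ((N : ℝ) ^ a) := Real.exp_le_exp.mpr h8
  calc 2 * |∑' n : ℕ, AG_a χ f (n + (A + 1))|
      ≤ 2 * (C * N * r ^ (A + 1) * (1 - r)⁻¹) := mul_le_mul_of_nonneg_left h3 (by norm_num)
    _ ≤ 2 * (C * N * Real.exp (-((N : ℝ) ^ a)) * (2 * N)) := by
        apply mul_le_mul_of_nonneg_left _ (by norm_num)
        apply mul_le_mul (mul_le_mul_of_nonneg_left h6 (by positivity)) _
          (inv_nonneg.mpr (by linarith)) (by positivity)
        linarith
    _ = 4 * C * N ^ 3 * Real.exp (-((N : ℝ) ^ a)) * (1 / N) := by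
        field_simp
        ring
    _ ≤ 1 * (1 / N) := by
        apply mul_le_mul_of_nonneg_right _ (by positivity)
        rw [Real.exp_neg, ← div_eq_mul_inv, div_le_one (Real.exp_pos _)]
        exact h7
    _ = 1 / N := one_mul _

end Pool.Agent.TK
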