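import Pool.Agent.Lib_helper41.TK.Defs
import Pool.Agent.Lib_helper68.KSLF.BUL

/-! TK, block GG: Parseval for the kernel with weights on the fractions. -/

set_option autoImplicit false

namespace Pool.Agent.TK

open Pool.Agent.LEV Pool.Agent.LVB Pool.Agent.KSL
open Pool.Agent.LK (PQ)
open Pool.Agent.FG61 (mu phi cc ff AA Lam)
open Complex MeasureTheory Filter Topology UpperHalfPlane ModularGroup ProbabilityTheory
open scoped MatrixGroups Modular ENNReal ModularForm ComplexConjugate ContDiff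

theorem GG_ph (N Q : ℕ) (w : ℕ → ℕ → ℂ) (ρ : ℝ → ℝ) (x y : ℝ) : gph N Q w ρ x y =
    ∑ c ∈ (Finset.Icc 1 Q).filter (fun c : ℕ => 2 * rq N c < y),
      ∑ j ∈ RR c, w c j * bul_g ρ ((j : ℝ) / c) y x := by
  unfold gph
  refine Finset.sum_congr rfl fun q _ => ?_
  refine Finset.sum_congr rfl fun j _ => ?_
  unfold bul_g bul_k
  push_cast
  ring

/-- the Fourier transform of the kernel -/
theorem GG_ft {T : ℝ} {ρ : ℝ → ℝ} (hρ : Ker T ρ) {N Q : ℕ} (hN : 1 ≤ N) (w : ℕ → ℕ → ℂ) {y : ℝ}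
    (hy : 0 < y) (n : ℤ) :
    ∫ x : ℝ, cexp (-(2 * Real.pi * n * x : ℝ) * Complex.I) * gph N Q w ρ x y =
      kh ρ (n * y) * gT Q w (2 / (y * Real.sqrt N)) (-n) := by
  have h1 : ∀ x : ℝ, cexp (-(2 * Real.pi * n * x : ℝ) * Complex.I) * gph N Q w ρ x y =
      ∑ c ∈ (Finset.Icc 1 Q).filter (fun c : ℕ => 2 * rq N c < y), ∑ j ∈ RR c,
        w c j * (cexp (-(2 * Real.pi * n * x : ℝ) * Complex.I) *
          bul_g ρ ((j : ℝ) / c) y x) := by
    intro x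
    rw [GG_ph, Finset.mul_sum]
    refine Finset.sum_congr rfl fun q _ => ?_
    rw [Finset.mul_sum]
    refine Finset.sum_congr rfl fun j _ => ?_
    rw [mul_left_comm]
  simp only [h1]
  rw [integral_finsetSum _ (fun q _ => integrable_finsetSum _ fun j _ =>
    (bul_g_int hρ _ hy n).const_mul _)]
  have h2 : ∀ c ∈ (Finset.Icc 1 Q).filter (fun c : ℕ => 2 * rq N c < y),
      ∫ x : ℝ, ∑ j ∈ RR c, w c j * (cexp (-(2 * Real.pi * n * x : ℝ) * Complex.I) *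
          bul_g ρ ((j : ℝ) / c) y x) =
        kh ρ (n * y) * ∑ j ∈ RR c, w c j *
          cexp (2 * Real.pi * Complex.I * ((-n : ℤ) : ℂ) * (((j : ℝ) / c : ℝ) : ℂ)) := by
    intro c hc
    rw [integral_finsetSum _ fun j _ => (bul_g_int hρ _ hy n).const_mul _]
    simp only [integral_const_mul]
    simp only [bul_g_ft _ hy]
    rw [Finset.mul_sum]
    refine Finset.sum_congr rfl fun j _ => ?_
    have e : cexp (-(2 * Real.pi * n * ((j : ℝ) / c) : ℝ) * Complex.I) =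
        cexp (2 * Real.pi * Complex.I * ((-n : ℤ) : ℂ) * (((j : ℝ) / c : ℝ) : ℂ)) := by
      congr 1
      push_cast
      ring
    rw [e]
    ring
  rw [Finset.sum_congr rfl h2, ← Finset.mul_sum, bul_filter hN hy]
  rfl

/-- the support -/
theorem GG_supp {T : ℝ} {ρ : ℝ → ℝ} (hρ : Ker T ρ) {N Q : ℕ} (hN : 1 ≤ N)
    (hQ : 100 * T * Q ≤ Real.sqrt N) (w : ℕ → ℕ → ℂ) {y : ℝ} (hy : 0 < y)
    (hy2 : y < 2 / Real.sqrt N) {x : ℝ} (hx : gph N Q w ρ x y ≠ 0) : 0 < x ∧ x < 1 := by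
  by_contra hcon
  apply hx
  rw [GG_ph]
  refine Finset.sum_eq_zero fun q hq => ?_
  refine Finset.sum_eq_zero fun j hj => ?_
  obtain ⟨hq, hq3⟩ := Finset.mem_filter.mp hq
  obtain ⟨hq1, hqQ⟩ := Finset.mem_Icc.mp hq
  have hs : 0 < Real.sqrt N := Real.sqrt_pos.mpr (by exact_mod_cast hN)
  have hT := hρ.T1
  have hqr : (1 : ℝ) ≤ q := by exact_mod_cast hq1
  have hqQr : (q : ℝ) ≤ Q := by exact_mod_cast hqQ
  obtain ⟨hjq, hcop⟩ := Finset.mem_filter.mp hj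
  rw [Finset.mem_range] at hjq
  have hq2 : 2 ≤ q := by
    by_contra h
    have hq' : q = 1 := by omega
    subst hq'
    unfold rq at hq3
    rw [Nat.cast_one, one_mul, mul_one_div] at hq3
    linarith
  have hj1 : 1 ≤ j := by
    rcases Nat.eq_zero_or_pos j with rfl | h
    · rw [Nat.coprime_zero_right] at hcop
      omega
    · exact h
  by_contra hne
  have h1 : |(x - (j : ℝ) / q) / y| ≤ T := by
    by_contra h
    rw [not_le] at h
    apply hne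
    unfold bul_g bul_k
    rw [hρ.supp _ h, Complex.ofReal_zero, zero_mul, mul_zero, mul_zero]
  rw [abs_div, abs_of_pos hy, div_le_iff₀ hy, abs_le] at h1
  have h2 : T * y < 1 / q := by
    have h3 : y * Real.sqrt N < 2 := by
      rw [lt_div_iff₀ hs] at hy2
      exact hy2
    have h4 : T * y * (100 * Q) < 2 := by
      calc T * y * (100 * Q) = y * (100 * T * Q) := by ring
        _ ≤ y * Real.sqrt N := mul_le_mul_of_nonneg_left hQ hy.le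
        _ < 2 := h3
    rw [lt_div_iff₀ (by linarith)]
    have h5 : T * y * q ≤ T * y * Q := mul_le_mul_of_nonneg_left hqQr (by positivity)
    nlinarith
  have hqpos : (0 : ℝ) < q := by linarith
  have hj1r : (1 : ℝ) ≤ j := by exact_mod_cast hj1
  have hjqr : (j : ℝ) + 1 ≤ q := by exact_mod_cast hjq
  have h6 : 1 / (q : ℝ) ≤ (j : ℝ) / q := div_le_div_of_nonneg_right hj1r hqpos.le
  have h7 : (j : ℝ) / q ≤ 1 - 1 / q := by
    rw [div_le_iff₀ hqpos, sub_mul, one_div_mul_cancel hqpos.ne']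
    linarith
  exact hcon ⟨by linarith [h1.1], by linarith [h1.2]⟩

theorem GG_cont {T : ℝ} {ρ : ℝ → ℝ} (hρ : Ker T ρ) (N Q : ℕ) (w : ℕ → ℕ → ℂ) (y : ℝ) :
    Continuous (fun x : ℝ => gph N Q w ρ x y) := by
  simp only [GG_ph]
  refine continuous_finsetSum _ fun q _ => continuous_finsetSum _ fun j _ => ?_
  exact continuous_const.mul (bul_g_cont hρ _ y)

/-- the norm of the kernel at a given height -/
theorem gph_parseval {T : ℝ} {ρ : ℝ → ℝ} (hρ : Ker T ρ) {N Q : ℕ} (hN : 1 ≤ N) (hQ1 : 1 ≤ Q)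
    (hQ : 100 * T * Q ≤ Real.sqrt N) (w : ℕ → ℕ → ℂ) {y : ℝ} (hy : 0 < y)
    (hy2 : y < 2 / Real.sqrt N) :
    Summable (fun n : ℕ => ‖kh ρ ((n + 1) * y)‖ ^ 2 *
        ‖gT Q w (2 / (y * Real.sqrt N)) (-(n + 1 : ℤ))‖ ^ 2 +
      ‖kh ρ (-((n + 1) * y))‖ ^ 2 * ‖gT Q w (2 / (y * Real.sqrt N)) (n + 1 : ℤ)‖ ^ 2) ∧
    Integrable (fun x : ℝ => ‖gph N Q w ρ x y‖ ^ 2) ∧
    ∫ x : ℝ, ‖gph N Q w ρ x y‖ ^ 2 = ‖gT Q w (2 / (y * Real.sqrt N)) 0‖ ^ 2 +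
      ∑' n : ℕ, (‖kh ρ ((n + 1) * y)‖ ^ 2 *
          ‖gT Q w (2 / (y * Real.sqrt N)) (-(n + 1 : ℤ))‖ ^ 2 +
        ‖kh ρ (-((n + 1) * y))‖ ^ 2 * ‖gT Q w (2 / (y * Real.sqrt N)) (n + 1 : ℤ)‖ ^ 2) := by
  set D : ℝ := 2 / (y * Real.sqrt N) with hD
  have hcont := GG_cont hρ N Q w y
  have hout : ∀ x : ℝ, x ∉ Set.Ioo (0 : ℝ) 1 → gph N Q w ρ x y = 0 := by
    intro x hx
    by_contra h
    exact hx (GG_supp hρ hN hQ w hy hy2 h)
  have hcs : HasCompactSupport (fun x : ℝ => gph N Q w ρ x y) :=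
    HasCompactSupport.intro (isCompact_Icc (a := (0 : ℝ)) (b := 1)) fun x hx =>
      hout x fun h => hx (Set.Ioo_subset_Icc_self h)
  have hint : Integrable (fun x : ℝ => ‖gph N Q w ρ x y‖ ^ 2) := by
    refine Continuous.integrable_of_hasCompactSupport (hcont.norm.pow 2) ?_
    refine HasCompactSupport.intro (isCompact_Icc (a := (0 : ℝ)) (b := 1)) fun x hx => ?_
    rw [hout x fun h => hx (Set.Ioo_subset_Icc_self h)]
    simp
  have h01 : (0 : ℝ) < 1 := one_pos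
  have hmem : MemLp (fun x : ℝ => gph N Q w ρ x y) 2 (volume.restrict (Set.Ioc (0 : ℝ) 1)) :=
    (hcont.memLp_of_hasCompactSupport hcs).restrict _
  have hP := hasSum_sq_fourierCoeffOn h01 hmem
  have hcoef : ∀ n : ℤ, fourierCoeffOn h01 (fun x : ℝ => gph N Q w ρ x y) n =
      kh ρ (n * y) * gT Q w D (-n) := by
    intro n
    rw [fourierCoeffOn_eq_integral, ← GG_ft hρ hN w hy n]
    rw [intervalIntegral.integral_of_le h01.le]
    have h1 : ∫ x in Set.Ioc (0 : ℝ) 1, fourier (-n) (x : AddCircle (1 - 0 : ℝ)) •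
        gph N Q w ρ x y = ∫ x : ℝ, cexp (-(2 * Real.pi * n * x : ℝ) * Complex.I) *
          gph N Q w ρ x y := by
      rw [← integral_indicator measurableSet_Ioc]
      refine integral_congr_ae (ae_of_all _ fun x => ?_)
      show (Set.Ioc (0 : ℝ) 1).indicator (fun x : ℝ => fourier (-n) (x : AddCircle (1 - 0 : ℝ)) •
        gph N Q w ρ x y) x = cexp (-(2 * Real.pi * n * x : ℝ) * Complex.I) * gph N Q w ρ x y
      by_cases hx : x ∈ Set.Ioc (0 : ℝ) 1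
      · rw [Set.indicator_of_mem hx, fourier_coe_apply, smul_eq_mul]
        congr 2
        push_cast
        ring
      · rw [Set.indicator_of_notMem hx, hout x fun h => hx (Set.Ioo_subset_Ioc_self h), mul_zero]
    rw [h1]
    simp
  simp only [hcoef] at hP
  have hval : (1 - 0 : ℝ)⁻¹ • ∫ x in (0 : ℝ)..1, ‖gph N Q w ρ x y‖ ^ 2 =
      ∫ x : ℝ, ‖gph N Q w ρ x y‖ ^ 2 := by
    rw [sub_zero, inv_one, one_smul, intervalIntegral.integral_of_le h01.le,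
      ← integral_indicator measurableSet_Ioc]
    refine integral_congr_ae (ae_of_all _ fun x => ?_)
    show (Set.Ioc (0 : ℝ) 1).indicator (fun x : ℝ => ‖gph N Q w ρ x y‖ ^ 2) x =
      ‖gph N Q w ρ x y‖ ^ 2
    by_cases hx : x ∈ Set.Ioc (0 : ℝ) 1
    · rw [Set.indicator_of_mem hx]
    · rw [Set.indicator_of_notMem hx, hout x fun h => hx (Set.Ioo_subset_Ioc_self h)]
      simp
  rw [hval] at hP
  have h2 := hP.nat_add_neg
  have h3 := (hasSum_nat_add_iff' 1).mpr h2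
  have h4 : ∀ n : ℕ, ‖kh ρ ((((n + 1 : ℕ) : ℤ) : ℝ) * y) *
        gT Q w D (-((n + 1 : ℕ) : ℤ))‖ ^ 2 +
      ‖kh ρ (((-((n + 1 : ℕ) : ℤ) : ℤ) : ℝ) * y) *
        gT Q w D (-(-((n + 1 : ℕ) : ℤ)))‖ ^ 2 =
      ‖kh ρ ((n + 1) * y)‖ ^ 2 * ‖gT Q w D (-(n + 1 : ℤ))‖ ^ 2 +
        ‖kh ρ (-((n + 1) * y))‖ ^ 2 * ‖gT Q w D (n + 1 : ℤ)‖ ^ 2 := by
    intro n
    have e1 : (((n + 1 : ℕ) : ℤ)) = (n + 1 : ℤ) := by push_cast; rfl
    have e3 : ((((n + 1 : ℕ) : ℤ) : ℝ) * y) = (n + 1) * y := by push_cast; ring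
    have e4 : (((-((n + 1 : ℕ) : ℤ) : ℤ) : ℝ) * y) = -((n + 1) * y) := by push_cast; ring
    rw [e3, e4, neg_neg, e1, norm_mul, norm_mul, mul_pow, mul_pow]
  have h5 : HasSum (fun n : ℕ => ‖kh ρ ((n + 1) * y)‖ ^ 2 * ‖gT Q w D (-(n + 1 : ℤ))‖ ^ 2 +
        ‖kh ρ (-((n + 1) * y))‖ ^ 2 * ‖gT Q w D (n + 1 : ℤ)‖ ^ 2)
      ((∫ x : ℝ, ‖gph N Q w ρ x y‖ ^ 2) - ‖gT Q w D 0‖ ^ 2) := by
    have h6 := h3
    simp only [h4] at h6
    have e5 : ‖kh ρ (((0 : ℤ) : ℝ) * y) * gT Q w D (-0)‖ ^ 2 = ‖gT Q w D 0‖ ^ 2 := by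
      rw [Int.cast_zero, zero_mul, (kh_zero_pr hρ).1, one_mul, neg_zero]
    have e6 : ∑ i ∈ Finset.range 1,
        (‖kh ρ ((((i : ℕ) : ℤ) : ℝ) * y) * gT Q w D (-((i : ℕ) : ℤ))‖ ^ 2 +
          ‖kh ρ (((-((i : ℕ) : ℤ) : ℤ) : ℝ) * y) *
            gT Q w D (-(-((i : ℕ) : ℤ)))‖ ^ 2) = 2 * ‖gT Q w D 0‖ ^ 2 := by
      rw [neg_zero] at e5
      rw [Finset.sum_range_one]
      simp only [Nat.cast_zero, neg_zero]
      rw [e5]
      ring
    rw [e5, e6] at h6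
    have e7 : (∫ x : ℝ, ‖gph N Q w ρ x y‖ ^ 2) + ‖gT Q w D 0‖ ^ 2 - 2 * ‖gT Q w D 0‖ ^ 2 =
        (∫ x : ℝ, ‖gph N Q w ρ x y‖ ^ 2) - ‖gT Q w D 0‖ ^ 2 := by ring
    rw [e7] at h6
    exact h6
  refine ⟨h5.summable, hint, ?_⟩
  rw [h5.tsum_eq]
  ring

end Pool.Agent.TK
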